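import Pool.Agent.H96S.KB.Pow

/-!
# The k(B) conjecture is equivalent to its asymptotic form

Let `k` be an algebraically closed field (of characteristic `p`).  Blocks are primitive idempotents `e` of the
centre of `kG`, `k(B) = dim Z(kG) e`, and the order of the defect group is the least order of a subgroup `D` such
that `e` is a relative trace from `D`, as in the frozen statement `S02531`.

Let `Y` be a property of blocks which is inherited by outer squares, from the block `e` of `G` to the block
`e ⊗ e` of `G × G`; for instance: `G` is in a class of groups closed under direct squares, `B` arbitrary or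
principal.  Then either `k(B) ≤ |D|` for all blocks with the property, or there is `δ > 0` and there are blocks
with the property with `k(B) ≥ |D|^(1+δ)` and with `k(B)` as large as we like.  So the conjecture for `Y` is
equivalent to the bound `k(B) ≤ C(ε) |D|^(1+ε)` for every `ε > 0`.
-/

set_option autoImplicit false

open Pool.Agent.H96S.KB

namespace Pool.Agent.Results.MP_a15589_al.AsymptoticForm

/-- **Theorem.** (1) For a property of blocks inherited by outer squares: the bound `k(B) ≤ |D|` holds for
all blocks with the property, or it fails by a power of `|D|` along blocks with `k(B)` unbounded;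
(2) so the bound is equivalent to `k(B) ≤ C(ε) |D|^(1+ε)` for all `ε > 0`.  (3) This applies to all blocks of the
groups in a class closed under direct squares, and (4) to their principal blocks. -/
theorem result (k : Type) [Field k] [IsAlgClosed k] :
    (∀ Y : ∀ (G : Type) [Group G] [Finite G], MonoidAlgebra k G → Prop,
      (∀ (G : Type) [Group G] [Finite G] (e : MonoidAlgebra k G), Y G e → Y (G × G) (outer e e)) →
      (Bound Y ∨ Far Y) ∧ (Bound Y ↔ Weak Y)) ∧
    (∀ X : ∀ (G : Type) [Group G] [Finite G], Prop,
      (∀ (G : Type) [Group G] [Finite G], X G → X (G × G)) →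
      (Bound (k := k) (fun G _ _ _ => X G) ↔ Weak (k := k) (fun G _ _ _ => X G)) ∧
      (Bound (k := k) (fun G _ _ e => X G ∧ IsPrincipal G e) ↔
        Weak (k := k) (fun G _ _ e => X G ∧ IsPrincipal G e))) := by
  have main : ∀ Y : ∀ (G : Type) [Group G] [Finite G], MonoidAlgebra k G → Prop,
      (∀ (G : Type) [Group G] [Finite G] (e : MonoidAlgebra k G), Y G e → Y (G × G) (outer e e)) →
      (Bound Y ∨ Far Y) ∧ (Bound Y ↔ Weak Y) := by
    intro Y hY
    refine ⟨bound_or_far hY, weak_of_bound, fun hW => ?_⟩
    rcases bound_or_far hY with h | h
    · exact h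
    · exact absurd hW (not_weak_of_far h)
  refine ⟨main, fun X hX => ⟨?_, ?_⟩⟩
  · exact (main (fun G _ _ _ => X G) (fun G _ _ _ h => hX G h)).2
  · exact (main (fun G _ _ e => X G ∧ IsPrincipal G e)
      (fun G _ _ e h => ⟨hX G h.1, principal_outer G e h.2⟩)).2

end Pool.Agent.Results.MP_a15589_al.AsymptoticForm
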