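import Pool.Agent.Q108.KD.Red
import Pool.Agent.Q108.KD.Num

/-!
# Brauer's `k(B)` conjecture for classes of defect groups: real rational blocks and weak bounds suffice

Let `P` be a class of groups closed under direct powers and regular wreath products with finite cyclic
groups, and `R` a class of groups closed under isomorphisms and finite direct powers (for instance the
commutative groups). For the blocks of the finite groups in `P` whose idempotent is a relative trace
from a subgroup in `R` (for `R` the commutative groups: the blocks with abelian defect groups)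
Brauer's inequality follows from very weak bounds for the real blocks over the prime field among them.
-/

set_option autoImplicit false

open MonoidAlgebra Filter

namespace Pool.Agent.Results.MP_a15589_al.DefectGroupClasses

section defs
variable {k : Type} [Field k] {G : Type} [Group G]

/-- `e` is the idempotent of a block of `kG`: a primitive idempotent of the centre. -/
def IsBlock (e : MonoidAlgebra k G) : Prop :=
  IsIdempotentElem e ∧ (∀ x, x * e = e * x) ∧ e ≠ 0 ∧
    ∀ f : MonoidAlgebra k G, IsIdempotentElem f → (∀ x, x * f = f * x) → f * e = 0 ∨ f * e = e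

/-- `e` is the relative trace of an element fixed by `D`. The defect groups of the block are the
subgroups of the smallest order with this property. -/
def IsTrace (D : Subgroup G) (e : MonoidAlgebra k G) : Prop :=
  ∃ a : MonoidAlgebra k G,
    (∀ q ∈ D, MonoidAlgebra.of k G q * a = a * MonoidAlgebra.of k G q) ∧
    e = ∑ᶠ x : G ⧸ D, MonoidAlgebra.of k G (Quotient.out x) * a *
          MonoidAlgebra.of k G (Quotient.out x)⁻¹

/-- `k(B)`, the dimension of `Z(kG)e` -/
noncomputable def numChar (e : MonoidAlgebra k G) : ℕ :=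
  Module.finrank k (Submodule.map (LinearMap.mulRight k e)
    (Subalgebra.toSubmodule (Subalgebra.center k (MonoidAlgebra k G))))

/-- `|δ(B)|`, the order of the defect groups -/
noncomputable def defectOrder (e : MonoidAlgebra k G) : ℕ :=
  sInf {n : ℕ | ∃ D : Subgroup G, IsTrace D e ∧ Nat.card D = n}

/-- The coefficients of `e` are in the field with `p` elements. -/
def Rational (p : ℕ) (e : MonoidAlgebra k G) : Prop := ∀ g, e.coeff g ^ p = e.coeff g

/-- `e` is invariant under the inversion of the group elements (the block is equal to its dual). -/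
def RealBlock (e : MonoidAlgebra k G) : Prop := ∀ g, e.coeff g⁻¹ = e.coeff g

/-- `e` is a relative trace from a subgroup in the class `R`. -/
def TraceFrom (R : ∀ (D : Type) [Group D], Prop) (e : MonoidAlgebra k G) : Prop :=
  ∃ D : Subgroup G, IsTrace D e ∧ R D

end defs

/-- a class of groups which contains with `G` the direct powers of `G` and the regular wreath products
of `G` with the finite cyclic groups -/
structure Closed (P : ∀ (G : Type) [Group G], Prop) : Prop where
  pow : ∀ (G : Type) [Group G] (m : ℕ), P G → P (Fin m → G)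
  wreath : ∀ (G : Type) [Group G] (r : ℕ), 0 < r → P G →
    P (RegularWreathProduct G (Multiplicative (ZMod r)))

/-- a class of groups closed under isomorphisms and finite direct powers -/
structure ClosedPow (R : ∀ (D : Type) [Group D], Prop) : Prop where
  iso : ∀ (D E : Type) [Group D] [Group E], Nonempty (D ≃* E) → R D → R E
  pow : ∀ (D : Type) [Group D] (ι : Type) [Finite ι], R D → R (ι → D)

/-- The statement `S G e` for all finite groups `G` in `P` and all blocks `e` of `G` which are a
relative trace from a subgroup in `R`. -/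
def All (k : Type) [Field k] (P R : ∀ (G : Type) [Group G], Prop)
    (S : ∀ (G : Type) [Group G] [Finite G], MonoidAlgebra k G → Prop) : Prop :=
  ∀ (G : Type) [Group G] [Finite G] (e : MonoidAlgebra k G), P G → IsBlock e → TraceFrom R e → S G e

/-- The four equivalent bounds with the exponent `θ`. -/
def Forms (p : ℕ) (k : Type) [Field k] (P R : ∀ (G : Type) [Group G], Prop) (θ : ℝ) : Prop :=
  List.TFAE [
    -- (i) `k(B) ≤ |δ(B)| ^ θ` for all these blocks
    All k P R (fun _ _ _ e => (numChar e : ℝ) ≤ (defectOrder e : ℝ) ^ θ),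
    -- (ii) `k(B) ≤ C_ε |δ(B)| ^ (θ + ε)` for the real ones over the prime field
    ∀ ε : ℝ, 0 < ε → ∃ C : ℝ, All k P R (fun _ _ _ e => Rational p e → RealBlock e →
      (numChar e : ℝ) ≤ C * (defectOrder e : ℝ) ^ (θ + ε)),
    -- (iii) for every `ε > 0` there are arbitrarily large `x` such that `k(B) ≤ |δ(B)| ^ θ x ^ ε` for
    -- the real ones over the prime field of the groups of order at most `x`
    ∀ ε : ℝ, 0 < ε → ∃ᶠ x : ℝ in atTop, All k P R (fun G _ _ e => Rational p e → RealBlock e →
      (Nat.card G : ℝ) ≤ x → (numChar e : ℝ) ≤ (defectOrder e : ℝ) ^ θ * x ^ ε),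
    -- (iv) for every `ε > 0` there are arbitrarily large `x` such that `k(B) ≤ x ^ (θ + ε)` for the
    -- real ones over the prime field with defect groups of order at most `x`
    ∀ ε : ℝ, 0 < ε → ∃ᶠ x : ℝ in atTop, All k P R (fun _ _ _ e => Rational p e → RealBlock e →
      (defectOrder e : ℝ) ≤ x → (numChar e : ℝ) ≤ x ^ (θ + ε))]

/-- Brauer's conjecture, Q1 of the problem: `k(B) ≤ |D|` for all blocks and all subgroups `D` of the
smallest order from which the block idempotent is a relative trace. -/
def Brauer : Prop :=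
  ∀ (p : ℕ), p.Prime → ∀ (k : Type) [Field k] [IsAlgClosed k] [CharP k p]
    (G : Type) [Group G] [Finite G] (e : MonoidAlgebra k G), IsBlock e →
    ∀ D : Subgroup G, IsTrace D e → (∀ Q : Subgroup G, IsTrace Q e → Nat.card D ≤ Nat.card Q) →
      numChar e ≤ Nat.card D

/-- commutativity, as a class of groups -/
def Abelian (D : Type) [Group D] : Prop := ∀ a b : D, a * b = b * a

private theorem forms (p : ℕ) (hp : p.Prime) (k : Type) [Field k] [IsAlgClosed k] [CharP k p]
    (P R : ∀ (G : Type) [Group G], Prop) (hP : Closed P) (hR : ClosedPow R) (θ : ℝ) (hθ : 0 ≤ θ) :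
    Forms p k P R θ := by
  have : Fact p.Prime := ⟨hp⟩
  have hperf : PerfectRing k p := inferInstance
  have hpos : ∀ (G : Type) [Group G] [Finite G] (e : MonoidAlgebra k G), IsBlock e →
      (1 : ℝ) ≤ defectOrder e := fun G _ _ e he => by
    exact_mod_cast Pool.Agent.Q288.KB.defect_pos he
  -- the reduction
  have hred : ∀ (G : Type) [Group G] [Finite G] (e : MonoidAlgebra k G), P G → IsBlock e →
      TraceFrom R e → ∃ m : ℕ, 0 < m ∧ ∃ g : ℕ, 0 < g ∧
      ∀ N : ℕ, ∃ (G' : Type) (_ : Group G') (_ : Finite G') (e' : MonoidAlgebra k G'),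
      P G' ∧ IsBlock e' ∧ TraceFrom R e' ∧ Rational p e' ∧ RealBlock e' ∧ Nat.card G' = g ^ N ∧
      ((numChar e : ℝ) ^ m) ^ N ≤ (numChar e' : ℝ) ∧
      (defectOrder e' : ℝ) ≤ ((defectOrder e : ℝ) ^ m) ^ N := by
    intro G _ _ e hG he ht
    obtain ⟨m, hm, g, hg, h⟩ := Pool.Agent.Q108.KD.reduce p ⟨hP.pow, hP.wreath⟩ ⟨hR.iso, hR.pow⟩
      hG he ht
    refine ⟨m, hm, g, hg, fun N => ?_⟩
    obtain ⟨G', i1, i2, e', h1, h2, h3, h4, h5, h6, h7, h8⟩ := h N
    refine ⟨G', i1, i2, e', h1, h2, h3, h4, h5, h6, ?_, ?_⟩
    · rw [← pow_mul]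
      exact_mod_cast h7
    · rw [← pow_mul]
      exact_mod_cast h8
  -- from the powers back to the block
  have hroot : ∀ (a b : ℝ) (m : ℕ), 0 < m → 0 ≤ a → 0 ≤ b → a ^ m ≤ (b ^ m) ^ θ → a ≤ b ^ θ := by
    intro a b m hm ha hb h
    have h6 : (b ^ m) ^ θ = (b ^ θ) ^ m := by
      rw [← Real.rpow_natCast, ← Real.rpow_natCast, ← Real.rpow_mul hb, ← Real.rpow_mul hb, mul_comm]
    rw [h6] at h
    exact le_of_pow_le_pow_left₀ hm.ne' (by positivity) h
  unfold Forms
  tfae_have 1 → 2 := by
    intro h ε hε
    refine ⟨1, fun G _ _ e hG he ht _ _ => ?_⟩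
    rw [one_mul]
    exact (h G e hG he ht).trans
      (Real.rpow_le_rpow_of_exponent_le (hpos G e he) (by linarith))
  tfae_have 1 → 3 := by
    intro h ε hε
    apply Eventually.frequently
    filter_upwards [eventually_ge_atTop (1 : ℝ)] with x hx
    intro G _ _ e hG he ht _ _ _
    refine (h G e hG he ht).trans ?_
    apply le_mul_of_one_le_right (by positivity)
    exact Real.one_le_rpow hx hε.le
  tfae_have 1 → 4 := by
    intro h ε hε
    apply Eventually.frequently
    filter_upwards [eventually_ge_atTop (1 : ℝ)] with x hx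
    intro G _ _ e hG he ht _ _ hd
    refine (h G e hG he ht).trans ?_
    refine (Real.rpow_le_rpow (by positivity) hd hθ).trans ?_
    exact Real.rpow_le_rpow_of_exponent_le hx (by linarith)
  tfae_have 2 → 1 := by
    intro h G _ _ e hG he ht
    obtain ⟨m, hm, g, hg, hN⟩ := hred G e hG he ht
    have hb : (1 : ℝ) ≤ (defectOrder e : ℝ) ^ m := one_le_pow₀ (hpos G e he)
    apply hroot _ _ m hm (by positivity) (by positivity)
    apply Pool.Agent.Q288.KB.amplify hb
    intro ε hε
    obtain ⟨C, hC⟩ := h ε hε
    refine ⟨max C 0, fun N => ?_⟩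
    obtain ⟨G', _, _, e', hP', hb', ht', hr', hi', -, h1, h2⟩ := hN N
    calc ((numChar e : ℝ) ^ m) ^ N ≤ (numChar e' : ℝ) := h1
      _ ≤ C * (defectOrder e' : ℝ) ^ (θ + ε) := hC G' e' hP' hb' ht' hr' hi'
      _ ≤ max C 0 * (defectOrder e' : ℝ) ^ (θ + ε) := by
          apply mul_le_mul_of_nonneg_right (le_max_left _ _)
          positivity
      _ ≤ max C 0 * (((defectOrder e : ℝ) ^ m) ^ N) ^ (θ + ε) := by
          apply mul_le_mul_of_nonneg_left _ (le_max_right _ _)
          apply Real.rpow_le_rpow (by positivity) h2 (by linarith)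
  tfae_have 3 → 1 := by
    intro h G _ _ e hG he ht
    obtain ⟨m, hm, g, hg, hN⟩ := hred G e hG he ht
    have hb : (1 : ℝ) ≤ (defectOrder e : ℝ) ^ m := one_le_pow₀ (hpos G e he)
    apply hroot _ _ m hm (by positivity) (by positivity)
    apply Pool.Agent.Q108.KD.ampG (g := (g : ℝ)) (by positivity) hb (by exact_mod_cast hg)
    intro ε hε
    refine (h ε hε).mp ?_
    filter_upwards [eventually_ge_atTop (1 : ℝ)] with x hx1 hx N hgN
    obtain ⟨G', _, _, e', hP', hb', ht', hr', hi', hcard, h1, h2⟩ := hN N
    have h3 := hx G' e' hP' hb' ht' hr' hi' (by rw [hcard]; exact_mod_cast hgN)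
    refine h1.trans (h3.trans ?_)
    apply mul_le_mul_of_nonneg_right _ (by positivity)
    exact Real.rpow_le_rpow (by positivity) h2 hθ
  tfae_have 4 → 1 := by
    intro h G _ _ e hG he ht
    obtain ⟨m, hm, g, hg, hN⟩ := hred G e hG he ht
    have hb : (1 : ℝ) ≤ (defectOrder e : ℝ) ^ m := one_le_pow₀ (hpos G e he)
    apply hroot _ _ m hm (by positivity) (by positivity)
    apply Pool.Agent.Q108.KD.ampD (by positivity) hb hθ
    intro ε hε
    refine (h ε hε).mono ?_
    intro x hx N hbN
    obtain ⟨G', _, _, e', hP', hb', ht', hr', hi', hcard, h1, h2⟩ := hN N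
    exact h1.trans (hx G' e' hP' hb' ht' hr' hi' (h2.trans hbN))
  tfae_finish

private theorem closed_true : Closed (fun _ _ => True) :=
  ⟨fun _ _ _ _ => trivial, fun _ _ _ _ _ => trivial⟩

private theorem closedPow_true : ClosedPow (fun _ _ => True) :=
  ⟨fun _ _ _ _ _ _ => trivial, fun _ _ _ _ _ => trivial⟩

private theorem closedPow_abelian : ClosedPow Abelian := by
  refine ⟨?_, ?_⟩
  · rintro D E _ _ ⟨f⟩ h a b
    apply f.symm.injective
    rw [map_mul, map_mul]
    exact h _ _
  · intro D _ ι _ h a b
    funext i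
    exact h _ _

/-- (1) The four bounds are equivalent, for every prime `p`, every algebraically closed field `k` of
characteristic `p`, all classes `P`, `R` with the closure properties and every exponent `θ ≥ 0`.
(2) In particular this holds for `R` the class of the commutative groups (the blocks with abelian
defect groups), for all finite groups.
(3) Brauer's conjecture (Q1) holds if and only if for all `p`, `k` and `ε > 0` there are arbitrarily
large `x` such that `k(B) ≤ |δ(B)| x ^ ε` for all real blocks over the prime field of the groups of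
order at most `x`. -/
theorem result :
    (∀ (p : ℕ), p.Prime → ∀ (k : Type) [Field k] [IsAlgClosed k] [CharP k p]
      (P R : ∀ (G : Type) [Group G], Prop), Closed P → ClosedPow R → ∀ θ : ℝ, 0 ≤ θ →
      Forms p k P R θ) ∧
    (∀ (p : ℕ), p.Prime → ∀ (k : Type) [Field k] [IsAlgClosed k] [CharP k p],
      ∀ θ : ℝ, 0 ≤ θ → Forms p k (fun _ _ => True) Abelian θ) ∧
    (Brauer ↔
      ∀ (p : ℕ), p.Prime → ∀ (k : Type) [Field k] [IsAlgClosed k] [CharP k p],
        ∀ ε : ℝ, 0 < ε → ∃ᶠ x : ℝ in atTop, ∀ (G : Type) [Group G] [Finite G]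
          (e : MonoidAlgebra k G), IsBlock e → Rational p e → RealBlock e → (Nat.card G : ℝ) ≤ x →
          (numChar e : ℝ) ≤ (defectOrder e : ℝ) * x ^ ε) := by
  refine ⟨fun p hp k _ _ _ P R hP hR θ hθ => forms p hp k P R hP hR θ hθ,
    fun p hp k _ _ _ θ hθ => forms p hp k _ _ closed_true closedPow_abelian θ hθ, ?_⟩
  have htr : ∀ (k : Type) [Field k] (G : Type) [Group G] [Finite G] (e : MonoidAlgebra k G),
      IsBlock e → TraceFrom (fun _ _ => True) e := by
    intro k _ G _ _ e he
    obtain ⟨D, hD, -⟩ := Pool.Agent.Q288.KB.exists_trace he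
    exact ⟨D, hD, trivial⟩
  constructor
  · intro h p hp k _ _ _
    have hf := (forms p hp k (fun _ _ => True) (fun _ _ => True) closed_true closedPow_true 1
      zero_le_one).out 0 2
    have h1 := hf.1 (by
      intro G _ _ e _ he _
      obtain ⟨D, hD, hD2⟩ := Pool.Agent.Q288.KB.exists_trace he
      have h2 := h p hp k G e he D hD (fun Q hQ => by
        rw [hD2]
        exact Nat.sInf_le ⟨Q, hQ, rfl⟩)
      rw [Real.rpow_one]
      rw [hD2] at h2
      exact_mod_cast h2)
    intro ε hε
    refine (h1 ε hε).mono ?_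
    intro x hx G _ _ e he hr hi hc
    have := hx G e trivial he (htr k G e he) hr hi hc
    rwa [Real.rpow_one] at this
  · intro h p hp k _ _ _ G _ _ e he D hD _
    have hf := (forms p hp k (fun _ _ => True) (fun _ _ => True) closed_true closedPow_true 1
      zero_le_one).out 0 2
    have h1 := hf.2 (by
      intro ε hε
      refine (h p hp k ε hε).mono ?_
      intro x hx G _ _ e _ he _ hr hi hc
      have := hx G e he hr hi hc
      rwa [Real.rpow_one])
    have h2 : (numChar e : ℝ) ≤ (defectOrder e : ℝ) ^ (1 : ℝ) := h1 G e trivial he (htr k G e he)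
    rw [Real.rpow_one] at h2
    have h3 : numChar e ≤ defectOrder e := by exact_mod_cast h2
    refine le_trans h3 ?_
    exact Nat.sInf_le ⟨D, hD, rfl⟩

end Pool.Agent.Results.MP_a15589_al.DefectGroupClasses
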