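import Mathlib
import Pool.Agent.Q222.BK.Grp

/-!
# Brauer's `k(B)` conjecture with a subpolynomial loss in the order of the group

`k` is an algebraically closed field (of characteristic `p`: then the objects below are the `p`-blocks; the definitions
are those of the frozen statement `S02531`).  A block of a finite group `G` is given by its idempotent `e`, a primitive
idempotent of the centre of `kG` (`IsBlock e`); `num k e = dim Z(kG) e` is the number `k(B)` of ordinary irreducible
characters in the block, and `defectOrder e`, the least order of a subgroup `D` with `e ∈ Tr_D^G((kG)^D)`, is the order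
`|δ(B)|` of a defect group.  `𝒞` is any class of finite groups which is closed under direct products `G × H`: all finite
groups, all finite groups with abelian Sylow `p`-subgroups, all direct products of simple groups, all solvable groups.

**Theorem.**  For every real number `α` the following are equivalent:

* `k(B) ≤ |δ(B)|^α` for all blocks `B` of groups in `𝒞`;
* for all `ε > 0` there are arbitrarily large `x` such that `k(B) ≤ |δ(B)|^α x^ε` for all blocks `B` of all groups
  `G ∈ 𝒞` with `|G| ≤ x`.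

So, for `α = 1`: Brauer's conjecture (for all groups in `𝒞`) is equivalent to `k(B) ≤ |δ(B)| |G|^{o(1)}`, and it is enough
to know this for one sequence of bounds `x → ∞` on the orders of the groups.  A single block with `k(B) > |δ(B)|` forces a
number `ε > 0` such that for ALL large `x` some group of order at most `x` has a block with `k(B) > |δ(B)| x^ε`.  The same
holds for every bound with another exponent, for example between Brauer's conjecture (`α = 1`) and the theorem of Brauer
and Feit (`α = 2`).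

Moreover, Brauer's conjecture for `𝒞` is equivalent to the following: for all `ε > 0` there are arbitrarily large `x` such
that `k(B) ≤ x^{1 + ε}` for all blocks `B` of groups in `𝒞` with `|δ(B)| ≤ x`; that is, to
`liminf_{x → ∞} log max {k(B) : |δ(B)| ≤ x} / log x ≤ 1`.

Proof.  The outer tensor product of blocks of `G` and `H` is a block of `G × H`: a central element of a block algebra over
`k` is a scalar plus a nilpotent element, and this passes to the tensor product `Z(kG) e ⊗ Z(kH) f = Z(k[G × H]) (e ⊗ f)`.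
So `k(B)` is multiplicative and `|δ(B)|` is submultiplicative, and a counterexample can be amplified by taking powers.
-/

set_option autoImplicit false

namespace Pool.Agent.Results.MP_a15589_al.SubpolynomialLoss

open Pool.Agent.Q222.BK

theorem defect_pos {k : Type} [Field k] {G : Type} [Group G] [Finite G] {e : MonoidAlgebra k G}
    (he : ∀ x, x * e = e * x) : 1 ≤ defectOrder e := by
  obtain ⟨D, -, hD⟩ := exists_defect he
  rw [← hD]
  exact Nat.card_pos

theorem amplify {k : Type} [Field k] [IsAlgClosed k] (𝒞 : ∀ (G : Type) [Group G], Prop)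
    (h𝒞 : ∀ (G H : Type) [Group G] [Group H] [Finite G] [Finite H], 𝒞 G → 𝒞 H → 𝒞 (G × H)) {α : ℝ}
    (h : ∀ ε : ℝ, 0 < ε → ∀ X : ℝ, ∃ x : ℝ, X ≤ x ∧ ∀ (G : Type) [Group G] [Finite G], 𝒞 G → (Nat.card G : ℝ) ≤ x →
      ∀ e : MonoidAlgebra k G, IsBlock e → (num k e : ℝ) ≤ (defectOrder e : ℝ) ^ α * x ^ ε)
    (hα : 0 ≤ α) {G : Type} [Group G] [Finite G] (hG : 𝒞 G) {e : MonoidAlgebra k G} (he : IsBlock e) :
    (num k e : ℝ) ≤ (defectOrder e : ℝ) ^ α := by
  by_contra hcon
  push Not at hcon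
  have hm1 : (1 : ℝ) ≤ (defectOrder e : ℝ) := by exact_mod_cast defect_pos he.central
  have hma : (1 : ℝ) ≤ (defectOrder e : ℝ) ^ α := Real.one_le_rpow hm1 hα
  have hK : (0 : ℝ) < (num k e : ℝ) := by linarith
  have hρ : 0 < Real.log (num k e) - α * Real.log (defectOrder e) := by
    have := Real.log_lt_log (by linarith) hcon
    rw [Real.log_rpow (by linarith)] at this
    linarith
  set ρ := Real.log (num k e) - α * Real.log (defectOrder e) with hρd
  set N : ℝ := max (Nat.card G : ℝ) 2 with hN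
  have hN2 : (2 : ℝ) ≤ N := le_max_right _ _
  have hlogN : 0 < Real.log N := Real.log_pos (by linarith)
  obtain ⟨x, hx, hB⟩ := h (ρ / (2 * Real.log N)) (by positivity) N
  have hx1 : (1 : ℝ) ≤ x := by linarith
  obtain ⟨n, hn1, hn2⟩ := exists_nat_pow_near hx1 (by linarith : (1 : ℝ) < N)
  have hn0 : n ≠ 0 := by
    rintro rfl
    simp at hn2
    linarith
  obtain ⟨j, rfl⟩ := Nat.exists_eq_succ_of_ne_zero hn0
  obtain ⟨G', _, _, hG', e', he', h1, h2, h3⟩ := powers (k := k) 𝒞 h𝒞 hG he j
  have hcard : (Nat.card G' : ℝ) ≤ x := by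
    refine le_trans ?_ hn1
    rw [h3]
    push_cast
    exact pow_le_pow_left₀ (Nat.cast_nonneg _) (le_max_left _ _) _
  have hb := hB G' hG' hcard e' he'
  have hd1 : (1 : ℝ) ≤ (defectOrder e' : ℝ) := by exact_mod_cast defect_pos he'.central
  have hlog := Real.log_le_log (by rw [h1]; push_cast; positivity) hb
  rw [h1, Real.log_mul (Real.rpow_pos_of_pos (by linarith) _).ne' (Real.rpow_pos_of_pos (by linarith) _).ne',
    Real.log_rpow (by linarith), Real.log_rpow (by linarith)] at hlog
  push_cast at hlog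
  rw [Real.log_pow] at hlog
  have hd2 : Real.log (defectOrder e') ≤ ((j : ℝ) + 1) * Real.log (defectOrder e) := by
    have h4 : (defectOrder e' : ℝ) ≤ (defectOrder e : ℝ) ^ (j + 1) := by exact_mod_cast h2
    have h5 := Real.log_le_log (by linarith) h4
    rw [Real.log_pow] at h5
    push_cast at h5
    exact h5
  have hxl : Real.log x < ((j : ℝ) + 2) * Real.log N := by
    have h6 := Real.log_lt_log (by linarith) hn2
    rw [Real.log_pow] at h6
    push_cast at h6
    linarith
  have h7 : α * Real.log (defectOrder e') ≤ α * (((j : ℝ) + 1) * Real.log (defectOrder e)) :=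
    mul_le_mul_of_nonneg_left hd2 hα
  have h8 : ρ / (2 * Real.log N) * Real.log x < ρ / (2 * Real.log N) * (((j : ℝ) + 2) * Real.log N) :=
    mul_lt_mul_of_pos_left hxl (by positivity)
  have h9 : ρ / (2 * Real.log N) * (((j : ℝ) + 2) * Real.log N) = ρ * ((j : ℝ) + 2) / 2 := by
    field_simp
  have hj : (0 : ℝ) ≤ j := j.cast_nonneg
  push_cast at hlog
  have h10 : ((j : ℝ) + 1) * ρ < ρ * ((j : ℝ) + 2) / 2 := by
    rw [hρd]
    rw [h9] at h8
    nlinarith
  nlinarith

theorem amplify' {k : Type} [Field k] [IsAlgClosed k] (𝒞 : ∀ (G : Type) [Group G], Prop)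
    (h𝒞 : ∀ (G H : Type) [Group G] [Group H] [Finite G] [Finite H], 𝒞 G → 𝒞 H → 𝒞 (G × H))
    (h : ∀ ε : ℝ, 0 < ε → ∀ X : ℝ, ∃ x : ℝ, X ≤ x ∧ ∀ (G : Type) [Group G] [Finite G], 𝒞 G →
      ∀ e : MonoidAlgebra k G, IsBlock e → (defectOrder e : ℝ) ≤ x → (num k e : ℝ) ≤ x ^ (1 + ε))
    {G : Type} [Group G] [Finite G] (hG : 𝒞 G) {e : MonoidAlgebra k G} (he : IsBlock e) :
    num k e ≤ defectOrder e := by
  by_contra hcon
  push Not at hcon
  have hm1 : (1 : ℝ) ≤ (defectOrder e : ℝ) := by exact_mod_cast defect_pos he.central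
  have hcon' : (defectOrder e : ℝ) < num k e := by exact_mod_cast hcon
  have hK : (0 : ℝ) < num k e := by linarith
  set M : ℝ := ((defectOrder e : ℝ) + num k e) / 2 with hM
  have hM1 : 1 < M := by
    rw [hM]
    linarith
  have hMm : (defectOrder e : ℝ) ≤ M := by
    rw [hM]
    linarith
  have hMK : M < num k e := by
    rw [hM]
    linarith
  have hL : 0 < Real.log M := Real.log_pos hM1
  have hLK : Real.log M < Real.log (num k e) := Real.log_lt_log (by linarith) hMK
  set δ : ℝ := Real.log (num k e) / Real.log M - 1 with hδ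
  have hδ0 : 0 < δ := by
    rw [hδ, sub_pos, lt_div_iff₀ hL, one_mul]
    exact hLK
  have hKδ : Real.log (num k e) = (1 + δ) * Real.log M := by
    rw [hδ]
    field_simp
    ring
  obtain ⟨j₀, hj₀⟩ := exists_nat_gt (4 / δ)
  obtain ⟨x, hx, hB⟩ := h (min 1 (δ / 2)) (lt_min one_pos (by positivity)) (M ^ (j₀ + 1))
  have hx1 : (1 : ℝ) ≤ x := le_trans (one_le_pow₀ hM1.le) hx
  obtain ⟨n, hn1, hn2⟩ := exists_nat_pow_near hx1 hM1
  have hn0 : j₀ + 1 < n + 1 := (pow_lt_pow_iff_right₀ hM1).1 (hx.trans_lt hn2)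
  obtain ⟨j, rfl⟩ := Nat.exists_eq_succ_of_ne_zero (by omega : n ≠ 0)
  obtain ⟨G', _, _, hG', e', he', h1, h2, -⟩ := powers (k := k) 𝒞 h𝒞 hG he j
  have hd : (defectOrder e' : ℝ) ≤ x := by
    refine le_trans ?_ hn1
    have h4 : (defectOrder e' : ℝ) ≤ (defectOrder e : ℝ) ^ (j + 1) := by exact_mod_cast h2
    exact h4.trans (pow_le_pow_left₀ (Nat.cast_nonneg _) hMm _)
  have hb := hB G' hG' e' he' hd
  have hlog := Real.log_le_log (by rw [h1]; push_cast; positivity) hb
  rw [h1, Real.log_rpow (by linarith)] at hlog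
  push_cast at hlog
  rw [Real.log_pow, hKδ] at hlog
  push_cast at hlog
  have hxl : Real.log x < ((j : ℝ) + 2) * Real.log M := by
    have h6 := Real.log_lt_log (by linarith) hn2
    rw [Real.log_pow] at h6
    push_cast at h6
    linarith
  have hε0 : 0 < min 1 (δ / 2) := lt_min one_pos (by positivity)
  have hε1 : min 1 (δ / 2) ≤ 1 := min_le_left _ _
  have hε2 : min 1 (δ / 2) ≤ δ / 2 := min_le_right _ _
  have hj : (j₀ : ℝ) ≤ j := by
    have : j₀ ≤ j := by omega
    exact_mod_cast this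
  have hjδ : 4 < (j : ℝ) * δ := by
    have h5 : 4 / δ < (j : ℝ) := lt_of_lt_of_le hj₀ hj
    rwa [div_lt_iff₀ hδ0] at h5
  have h8 : (1 + min 1 (δ / 2)) * Real.log x < (1 + min 1 (δ / 2)) * (((j : ℝ) + 2) * Real.log M) :=
    mul_lt_mul_of_pos_left hxl (by linarith)
  have h9 : ((j : ℝ) + 1) * (1 + δ) * Real.log M < (1 + min 1 (δ / 2)) * ((j : ℝ) + 2) * Real.log M := by nlinarith
  have h10 : ((j : ℝ) + 1) * (1 + δ) < (1 + min 1 (δ / 2)) * ((j : ℝ) + 2) := lt_of_mul_lt_mul_right h9 hL.le
  have hj0 : (0 : ℝ) ≤ j := j.cast_nonneg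
  nlinarith

/-- **Brauer's `k(B)` conjecture is equivalent to its form with a subpolynomial loss.** -/
theorem result (k : Type) [Field k] [IsAlgClosed k] (𝒞 : ∀ (G : Type) [Group G], Prop)
    (h𝒞 : ∀ (G H : Type) [Group G] [Group H] [Finite G] [Finite H], 𝒞 G → 𝒞 H → 𝒞 (G × H)) :
    (∀ α : ℝ, 0 ≤ α →
      ((∀ (G : Type) [Group G] [Finite G], 𝒞 G → ∀ e : MonoidAlgebra k G, IsBlock e →
        (num k e : ℝ) ≤ (defectOrder e : ℝ) ^ α) ↔
      ∀ ε : ℝ, 0 < ε → ∀ X : ℝ, ∃ x : ℝ, X ≤ x ∧ ∀ (G : Type) [Group G] [Finite G], 𝒞 G → (Nat.card G : ℝ) ≤ x →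
        ∀ e : MonoidAlgebra k G, IsBlock e → (num k e : ℝ) ≤ (defectOrder e : ℝ) ^ α * x ^ ε)) ∧
    ((∀ (G : Type) [Group G] [Finite G], 𝒞 G → ∀ e : MonoidAlgebra k G, IsBlock e → num k e ≤ defectOrder e) ↔
      ∀ ε : ℝ, 0 < ε → ∀ X : ℝ, ∃ x : ℝ, X ≤ x ∧ ∀ (G : Type) [Group G] [Finite G], 𝒞 G →
        ∀ e : MonoidAlgebra k G, IsBlock e → (defectOrder e : ℝ) ≤ x → (num k e : ℝ) ≤ x ^ (1 + ε)) := by
  refine ⟨fun α hα => ⟨fun h ε hε X => ?_, fun h G _ _ hG e he => amplify 𝒞 h𝒞 h hα hG he⟩,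
    fun h ε hε X => ?_, fun h G _ _ hG e he => amplify' 𝒞 h𝒞 h hG he⟩
  · refine ⟨max X 1, le_max_left _ _, fun G _ _ hG _ e he => ?_⟩
    refine (h G hG e he).trans ?_
    exact le_mul_of_one_le_right (Real.rpow_nonneg (Nat.cast_nonneg _) _) (Real.one_le_rpow (le_max_right _ _) hε.le)
  · refine ⟨max X 1, le_max_left _ _, fun G _ _ hG e he hd => ?_⟩
    have h1 : (num k e : ℝ) ≤ defectOrder e := by exact_mod_cast h G hG e he
    refine (h1.trans hd).trans ?_
    calc max X 1 = (max X 1) ^ (1 : ℝ) := (Real.rpow_one _).symm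
      _ ≤ (max X 1) ^ (1 + ε) := Real.rpow_le_rpow_of_exponent_le (le_max_right _ _) (by linarith)

end Pool.Agent.Results.MP_a15589_al.SubpolynomialLoss
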